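import Pool.Agent.L0h3.AP.Defs

/-!
# MP_c481b3_nt: almost all products of elliptic curves

The Sato-Tate conjecture for the product of elliptic curves `E_1, ..., E_n` over a number field `K`
without complex multiplication which are not isogenous in pairs over `K̄` says that the vectors of the
normalized traces `(x_1(v), ..., x_n(v))` are equidistributed in `[-2, 2]^n` for the product of the
semicircle laws. It is known for `n ≤ 2` and totally real `K` (Harris; Barnet-Lamb, Geraghty, Harris,
Taylor), and for no triple.

(1) `Transfer`: the transfer principle, without any hypothesis, for arbitrary sequences `x_k(v)` in a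
compact space,
arbitrary probability measures `μ_k` and arbitrary finite sets `s` of primes: if the functions
`f(x_k) - ∫ f dμ_k`, `k < N`, for finitely many `f` have pairwise correlations at most `Δ` on `s`, with at
most `D` exceptions in each row, then for all but `C N^g (1 + D + N Δ)` of the `(g + 1)`-tuples `k` the
mean of `F(y, x_{k_0}, ..., x_{k_g})` on `s` differs from the mean of `∫ F(y, z) dμ_{k_0} ... dμ_{k_g}` by
less than `ε`, for all `F` in a given totally bounded set, and for every map `y`. Here `C` depends only
on `ε` and the set of functions.

(2) `AlmostAll`: so if the law holds for the pairs, it holds up to `ε` at every large height for all but `C N^g` of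
the `(g + 1)`-tuples, also jointly with an arbitrary `y`, for instance the Frobenius classes of an
arbitrary abelian variety. (3) `FixedSets` is the form with fixed exceptional sets, for example along a sequence of
heights; for `g = 0` at most `C` sequences are exceptional for a given `y`.

(4) `BesselLaw` is the inequality of Bessel which is behind it, uniformly in all functions `G` on the
primes, with the sharp number of exceptions; (5) `VerticalLaw` says that for most primes `v` the numbers
`x_1(v), ..., x_N(v)` follow the law; (6) `SubsequenceLaw` that there are infinitely many `k` and
infinitely many heights along which the law holds asymptotically for all products of any number of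
factors.

(7) `CurveBoxes`, for elliptic curves: at every large height and for every set `P` of primes of positive proportion
the law holds on `P` for all boxes simultaneously up to `ε`, for all but `C N^g` of the `(g + 1)`-tuples.
-/

set_option autoImplicit false

namespace Pool.Agent.Results.MP_c481b3_nt.AlmostAllProducts

open Pool.Agent.K4H40.ST Pool.Agent.L0h3.AP
open NumberField IsDedekindDomain Filter Topology MeasureTheory

theorem result :
    Transfer ∧ AlmostAll ∧ FixedSets ∧
    (∀ (K : Type) [Field K] [NumberField K] (Z : Type) [TopologicalSpace Z] [CompactSpace Z]
      [T2Space Z] [SecondCountableTopology Z] [MeasurableSpace Z] [BorelSpace Z]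
      (x : ℕ → HeightOneSpectrum (𝓞 K) → Z) (μ : ℕ → Measure Z) [∀ k, IsProbabilityMeasure (μ k)],
      PairwiseST x μ → BesselLaw x μ ∧ VerticalLaw x μ ∧ SubsequenceLaw x μ) ∧
    CurveBoxes :=
  ⟨transfer, almostAll, fixedSets, fun K _ _ Z _ _ _ _ _ _ x μ _ H =>
    ⟨besselLaw K Z x μ H, verticalLaw K Z x μ H, subsequenceLaw K Z x μ H⟩, curveBoxes⟩

end Pool.Agent.Results.MP_c481b3_nt.AlmostAllProducts
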