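import Pool.Agent.L0h51.CV.Cor

/-!
# MP_c481b3_nt: which families of extension fields decide the Sato-Tate conjecture

`K` is a number field, `K̄` its algebraic closure, `S` a family of finite extensions of `K` in `K̄`
which contains with `E` all finite extensions of `E` (`UpClosed`). A prime `v` of `K` is seen in `E` if
`E` has a prime `w` above `v` with the same number of residue classes (`Seen`).

(1) The following conditions are equivalent: for every `ε > 0` finitely many fields in `S` see all
primes of `K` outside of a set of upper density `ε` (`Covers`); every bounded function on the primes of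
`K` whose means over the primes of the fields in `S` tend to zero has means over the primes of `K`
which tend to zero (`Transfers`); no set of primes of `K` of positive lower density has only finitely
many members which are seen in each field of `S` (`NoHidden`); almost every element of `Gal(K̄/K)` is
trivial on a conjugate of a field in `S` (`AlmostAll`).

(2) In this case, for every symplectic representation `ρ` of `Gal(K̄/K)` which is unramified outside a
finite set, for instance the representation on `V_ℓ(A)` for an abelian variety `A` over `K`, the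
Sato-Tate conjecture over the fields in `S` implies the Sato-Tate conjecture over `K`, and over all
finite extensions of `K` if `S` is closed under conjugation.

(3) is the quantitative form at a finite level: the Sato-Tate conjecture over the fields `F` with
`E ≤ F ≤ M`, `M / F` cyclic, `E ∈ T`, gives it over `K` up to `2 sup |f| δ`, where `δ` is the density of
the primes which are seen in no field in `T`. (4) is the case of the extensions of `K` which contain a
`q`-th root of a given `a ∈ K` for one of infinitely many given primes `q`; (5) the case of the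
extensions in which a given polynomial has a root, if every `σ ∈ Gal(K̄/K)` fixes a root of it (e.g.
`(x² - a) (x² - b) (x² - a b)`); (6) that of the subfields `≠ K` of a noncyclic Galois extension.
-/

set_option autoImplicit false

namespace Pool.Agent.Results.MP_c481b3_nt.CoveringCriterion

open Pool.Agent.K4H40.ST Pool.Agent.K4H53.SI Pool.Agent.L0h51.CV
open NumberField IsDedekindDomain Filter Topology MeasureTheory

theorem result (K : Type) [Field K] [NumberField K] :
    -- (1) the equivalence
    (∀ S : Set (IntermediateField K (AlgebraicClosure K)), UpClosed S →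
      (Covers S ↔ Transfers S) ∧ (Covers S ↔ NoHidden S) ∧ (Covers S ↔ AlmostAll S)) ∧
    ∀ (g : ℕ) (R : Type) [CommRing R]
      (ρ : Gal(AlgebraicClosure K/K) →* GL (Fin g ⊕ Fin g) R) (ι : R →+* ℂ),
      IsSymplectic ρ → IsUnramified K (AlgebraicClosure K) ρ →
    -- (2) the Sato-Tate conjecture
    (∀ S : Set (IntermediateField K (AlgebraicClosure K)), UpClosed S → Covers S →
      (∀ E ∈ S, Holds ρ ι E) →
      SatoTate K (AlgebraicClosure K) (extend ρ ι) ∧
      ((∀ E ∈ S, ∀ τ : Gal(AlgebraicClosure K/K),
          E.map (τ : AlgebraicClosure K →ₐ[K] AlgebraicClosure K) ∈ S) →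
        ∀ L : IntermediateField K (AlgebraicClosure K), FiniteDimensional K L → Holds ρ ι L)) ∧
    -- (3) the finite level
    (∀ (M : IntermediateField K (AlgebraicClosure K)) [FiniteDimensional K M] [IsGalois K M]
      (T : Set (IntermediateField K (AlgebraicClosure K))), T.Finite → (∀ E ∈ T, E ≤ M) →
      (∀ F : IntermediateField K (AlgebraicClosure K), F ≤ M → (∃ E ∈ T, E ≤ F) →
        (∃ τ₀ ∈ F.fixingSubgroup, ∀ τ ∈ F.fixingSubgroup, ∃ k : ℕ,
          (τ₀ ^ k)⁻¹ * τ ∈ M.fixingSubgroup) → Holds ρ ι F) →
      ∀ δ : ℝ, (∀ᶠ N : ℕ in atTop,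
        (cnt (fun v : HeightOneSpectrum (𝓞 K) => ∀ E ∈ T, ¬ Seen E v) N : ℝ) ≤
          δ * (cnt (fun _ : HeightOneSpectrum (𝓞 K) => True) N : ℝ)) →
      ∀ C : Subgroup (GL (Fin g ⊕ Fin g) ℂ), IsSatoTateGroup (extend ρ ι) C →
      ∀ x : HeightOneSpectrum (𝓞 K) → C,
        IsClassSystem K (AlgebraicClosure K) (extend ρ ι) C x →
      ∀ [MeasurableSpace C] [BorelSpace C] (μ : Measure C) [IsProbabilityMeasure μ]
        [μ.IsMulLeftInvariant] (f : C → ℂ), Continuous f → (∀ c h, f (h * c * h⁻¹) = f c) →
      ∀ B : ℝ, (∀ c, ‖f c‖ ≤ B) → ∀ ε : ℝ, 0 < ε →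
      ∀ᶠ N in atTop, ‖avg K (fun v => f (x v)) N - ∫ c, f c ∂μ‖ ≤ 2 * B * δ + ε) ∧
    -- (4) radicals
    (∀ (a : K) (P : Set ℕ), P.Infinite → (∀ q ∈ P, q.Prime) →
      (∀ E : IntermediateField K (AlgebraicClosure K), FiniteDimensional K E →
        (∃ q ∈ P, ∃ z ∈ E, z ^ q = algebraMap K (AlgebraicClosure K) a) → Holds ρ ι E) →
      SatoTate K (AlgebraicClosure K) (extend ρ ι) ∧
      ∀ L : IntermediateField K (AlgebraicClosure K), FiniteDimensional K L → Holds ρ ι L) ∧
    -- (5) polynomials
    (∀ h : Polynomial K,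
      (∀ σ : Gal(AlgebraicClosure K/K), ∃ z, Polynomial.aeval z h = 0 ∧ σ z = z) →
      (∀ E : IntermediateField K (AlgebraicClosure K), FiniteDimensional K E →
        (∃ z ∈ E, Polynomial.aeval z h = 0) → Holds ρ ι E) →
      SatoTate K (AlgebraicClosure K) (extend ρ ι) ∧
      ∀ L : IntermediateField K (AlgebraicClosure K), FiniteDimensional K L → Holds ρ ι L) ∧
    -- (6) extensions which are not cyclic
    (∀ (M : IntermediateField K (AlgebraicClosure K)) [FiniteDimensional K M] [IsGalois K M],
      ¬ IsCyclic Gal(M/K) →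
      (∀ F : IntermediateField K (AlgebraicClosure K), F ≤ M → F ≠ ⊥ → Holds ρ ι F) →
      SatoTate K (AlgebraicClosure K) (extend ρ ι)) := by
  refine ⟨fun S hS => ⟨⟨transfers_of_covers S hS, fun h =>
      covers_of_noHidden S hS.finite (noHidden_of_transfers S hS.finite h)⟩,
    ⟨fun h => noHidden_of_transfers S hS.finite (transfers_of_covers S hS h),
      covers_of_noHidden S hS.finite⟩, covers_iff_almostAll S hS.finite⟩, ?_⟩
  intro g R _ ρ ι hsymp hunr
  refine ⟨fun S hS hc hyp => ⟨base_of_covers ρ ι hsymp hunr S hS hc hyp,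
      fun hSc L hL => all_of_covers ρ ι hsymp hunr S hS hSc hc hyp L hL⟩, ?_, ?_, ?_, ?_⟩
  · intro M _ _ T hT hTM hyp δ hδ C hC x hx _ _ μ _ _ f hf hcl B hB ε hε
    exact finite_level ρ ι hsymp hunr M T hT hTM hyp δ hδ C hC x hx μ f hf hcl B hB ε hε
  · intro a P hP hPp hyp
    have hc := radical_covers a P hP hPp
    have hyp' : ∀ E ∈ Con {z : Kbar K | ∃ q ∈ P, z ^ q = algebraMap K (Kbar K) a},
        Holds ρ ι E := by
      rintro E ⟨hE, z, ⟨q, hq, hz⟩, hzE⟩
      exact hyp E hE ⟨q, hq, z, hzE, hz⟩
    refine ⟨base_of_covers ρ ι hsymp hunr _ (con_up _) hc hyp', fun L hL =>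
      all_of_covers ρ ι hsymp hunr _ (con_up _) (fun E hE τ => con_map _ ?_ E hE τ) hc hyp' L hL⟩
    rintro z ⟨q, hq, hz⟩ τ
    refine ⟨q, hq, ?_⟩
    rw [← map_pow, hz, AlgEquiv.commutes]
  · intro h hh hyp
    have hc := poly_covers h hh
    have hyp' : ∀ E ∈ Con {z : Kbar K | Polynomial.aeval z h = 0}, Holds ρ ι E := by
      rintro E ⟨hE, z, hz, hzE⟩
      exact hyp E hE ⟨z, hzE, hz⟩
    refine ⟨base_of_covers ρ ι hsymp hunr _ (con_up _) hc hyp', fun L hL =>
      all_of_covers ρ ι hsymp hunr _ (con_up _) (fun E hE τ => con_map _ ?_ E hE τ) hc hyp' L hL⟩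
    intro z hz τ
    have hz' : Polynomial.aeval z h = 0 := hz
    change Polynomial.aeval (τ z) h = 0
    have h1 := Polynomial.aeval_algHom_apply (τ : Kbar K →ₐ[K] Kbar K) z h
    rw [hz', map_zero] at h1
    exact h1
  · intro M _ _ hM hyp
    exact noncyclic ρ ι hsymp hunr M hM hyp

end Pool.Agent.Results.MP_c481b3_nt.CoveringCriterion
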