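import Pool.Agent.L0h3.AP.Tri

/-!
# MP_c481b3_nt: the products of any three elliptic curves

`K` is a number field and `E_0, E_1, E_2` are elliptic curves `y² = x³ + A x + B` over `K` without complex
multiplication, not isogenous in pairs over `K̄`; `x_i(v)` in `[-2, 2]` is the normalized trace of
Frobenius of `E_i` at `v`. For the abelian threefold `E_0 × E_1 × E_2` the Sato-Tate conjecture says that
`(x_0, x_1, x_2)` is equidistributed for the product of the semicircle laws; this is not known for any
such threefold. What is known over `K = ℚ`, and is assumed here, is the law for the three pairs (Harris;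
Barnet-Lamb, Geraghty, Harris and Taylor) and that the means of `x_0 x_1 h(x_2)` tend to zero for all
continuous `h` (Ramakrishnan: the product of two representations of `GL(2)` is automorphic; Newton and
Thorne: so are all symmetric powers; Rankin-Selberg).

The theorem: for every such triple

(1) each of the eight patterns of the signs of `x_0, x_1, x_2` has lower density at least
`256 / (81 π⁴) = 0.032...` (the conjecture says `1/8`);

(2) for every interval `I` and given signs of `x_0` and `x_1` the primes with these signs and with
`x_2 ∈ I` have lower density at least `γ μ(I)` and upper density at most `(1/2 - γ) μ(I)`, where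
`γ = 8 / (9 π²) - 1/16 = 0.027...` (the conjecture says `μ(I) / 4`);

(3) more generally for two elliptic curves and any `y(v)` in a topological space with a probability
measure `ν`, for instance the Frobenius classes of an abelian variety `B`: if the `x_i` are independent of
`y` for `i = 0, 1` and the means of `x_0 x_1 h(y)` tend to zero, then with given signs of `x_0` and `x_1`
the limits of the means of `h(y)` are between `γ ∫ h dν` and `(1/2 - γ) ∫ h dν`, for `0 ≤ h ≤ 1`.

The proof is by explicit functions below the indicator functions whose means are known. In (1) it uses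
`1 + s ≥ |x_0 x_1| (1 + s) / τ - x_0² x_1² / (2 τ²)` for `s = ±1` the product of the signs, in (2) and (3)
that `|x_0| |x_1| ≥ λ (|x_0| + |x_1|) - λ² / 2 - (x_0² + x_1²) / 2`.
-/

set_option autoImplicit false

namespace Pool.Agent.Results.MP_c481b3_nt.EveryTriple

open Pool.Agent.L0h3.AP
open NumberField IsDedekindDomain MeasureTheory

theorem result (K : Type) [Field K] [NumberField K] :
    -- (1), (2) every triple
    (∀ E : Fin 3 → 𝓞 K × 𝓞 K, (∀ i j, i ≠ j → CurveST E ![i, j]) → TripleMean E →
      SignPatterns E ∧ SignsInterval E) ∧
    -- (3) two curves and an arbitrary third object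
    (∀ (E₀ E₁ : 𝓞 K × 𝓞 K) (Y : Type) [TopologicalSpace Y] [MeasurableSpace Y]
      (y : HeightOneSpectrum (𝓞 K) → Y) (ν : Measure Y) [IsProbabilityMeasure ν],
      PairLaw E₀ y ν → PairLaw E₁ y ν → MeanZero E₀ E₁ y → SignsWeight E₀ E₁ y ν) :=
  ⟨fun E hE hT => ⟨triple_signs E hE hT, triple_interval E hE hT⟩,
    fun E₀ E₁ _ _ _ y ν _ h0 h1 h2 => signs_weight E₀ E₁ y ν h0 h1 h2⟩

end Pool.Agent.Results.MP_c481b3_nt.EveryTriple
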