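import Pool.Agent.L0h51.LR.Tw4

/-!
# MP_c481b3_nt: the Sato-Tate distribution of twists in a long range

`K` is a number field, `ρ` a representation of `Gal(K̄/K)`, for instance the representation on
`V_ℓ(A)` for an abelian variety `A` over `K`, `C` a Sato-Tate group of `ρ` which contains `-1`, and
`x_v` in `C` the class of the prime `v`. The twist of `ρ` by the quadratic character of `K(√m)` has the
Sato-Tate group `C` and the classes `± x_v` (`TwistGroups`).

(1) `Moments`: a high moment of the sums `∑ φ(v) χ(N(v))` over the primes `v` of prime norm at most `N`
and all primitive Dirichlet characters `χ` of modulus at most `Q`, for every bounded `φ`, for instance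
`φ(v) = f(x_v)` with a class function `f`.

(2) `FewCharacters`: for all but at most `D^η` of the primitive characters of modulus at most `D` the
sums over the primes of norm at most `N` are at most `δ π(N)` for all `N` with
`(log D)^(64/η) ≤ N ≤ exp(D^(η/4))`. This is uniform in all fields `K` of a given degree.

(3) `TwistMeans`: for all but at most `D^η` of the squarefree integers `m`, `|m| ≤ D`, the means over
`N(v) ≤ N` of a function `f` at the classes of the twist by `m` and of the even part of `f` at the
classes of `ρ` differ by at most `δ`, for all `N` with `(log D)^(256/η) ≤ N ≤ exp(D^(η/8))`. Here `D`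
has only to be large in terms of `K`, `sup |f|`, `δ` and `η`.

(4) `OddMeans`: so the odd functions have the means predicted by the Sato-Tate conjecture, up to `δ`,
for almost all quadratic twists, in this range. This assumes no case of the Sato-Tate conjecture.

(5) `TwistIntegrals`: if the Sato-Tate conjecture holds for `ρ`, for example for an elliptic curve over
a totally real field, then all continuous class functions have the means predicted by the conjecture,
up to `δ`, for almost all quadratic twists, in this range.

(6) `SplitMeans`: the mean over the primes which split in `K(√m)` and the mean over all primes differ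
by at most `δ`, for all but `D^η` of the `m`, in a similar range.
-/

set_option autoImplicit false

namespace Pool.Agent.Results.MP_c481b3_nt.LongRangeTwists

open Pool.Agent.L0h51.LR

theorem result (K : Type) [Field K] [NumberField K] (n : ℕ) (B δ η : ℝ) (hB : 0 ≤ B) (hδ : 0 < δ)
    (hη : 0 < η) (hη1 : η ≤ 1) :
    Moments K B ∧ FewCharacters n B δ η ∧ TwistGroups K ∧ TwistMeans K B δ η ∧ OddMeans K B δ η ∧
      TwistIntegrals K δ η ∧ SplitMeans K B δ η := by
  refine ⟨fun φ hφ N r Q hQ => moment_field φ B hφ hB N r Q hQ, exc_le n B δ η hB hδ hη,
    fun g R _ ρ ι C hC x hx hneg m hm => twist_main ρ ι C hC x hx hneg m hm,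
    twist_means K B δ η hB hδ hη hη1, twist_odd K B δ η hB hδ hη hη1, ?_,
    key_split K B δ η hB hδ hη hη1⟩
  intro g R _ ρ ι hST C hC hneg x hx _ _ μ _ _ f hf hcl
  exact twist_ST K ρ ι hST C hC hneg x hx μ f hf hcl δ η hδ hη hη1

end Pool.Agent.Results.MP_c481b3_nt.LongRangeTwists
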